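import Mathlib

/-!
A multiset is determined by its cardinality and the polynomial `∏ (1 - r X)`.
-/

set_option autoImplicit false

open Polynomial

namespace Pool.Agent.PGF

variable {K : Type*} [Field K]

lemma prod_one_sub_eval (S : Multiset K) (x : K) (hx : x ≠ 0) :
    ((S.map (fun r => (1 - C r * X : K[X]))).prod).eval x⁻¹ * x ^ (Multiset.card S) =
      (S.map (fun r => x - r)).prod := by
  induction S using Multiset.induction_on with
  | empty => simp
  | cons a s ih =>
    rw [Multiset.map_cons, Multiset.prod_cons, Multiset.map_cons, Multiset.prod_cons,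
      Multiset.card_cons, ← ih, eval_mul]
    simp only [eval_sub, eval_one, eval_mul, eval_C, eval_X]
    have h1 : (x - a) = (1 - a * x⁻¹) * x := by
      rw [sub_mul, one_mul, mul_assoc, inv_mul_cancel₀ hx, mul_one]
    rw [h1, pow_succ]
    ring

theorem prod_inj [Infinite K] {S S' : Multiset K} (hc : Multiset.card S = Multiset.card S')
    (h : (S.map (fun r => (1 - C r * X : K[X]))).prod = (S'.map (fun r => (1 - C r * X : K[X]))).prod) :
    S = S' := by
  have h1 : ∀ S : Multiset K, ∀ x, ((S.map (fun r => X - C r)).prod : K[X]).eval x =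
      (S.map (fun r => x - r)).prod := by
    intro S x
    rw [eval_multiset_prod, Multiset.map_map]
    simp
  have h2 : ((S.map (fun r => X - C r)).prod : K[X]) = (S'.map (fun r => X - C r)).prod := by
    have h3 : (((S.map (fun r => X - C r)).prod : K[X]) - (S'.map (fun r => X - C r)).prod) * X = 0 := by
      apply Polynomial.funext
      intro x
      rw [eval_mul, eval_sub, eval_X, eval_zero, h1, h1]
      by_cases hx : x = 0
      · rw [hx, mul_zero]
      · rw [← prod_one_sub_eval S x hx, ← prod_one_sub_eval S' x hx, h, hc, sub_self, zero_mul]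
    rcases mul_eq_zero.mp h3 with h4 | h4
    · exact sub_eq_zero.mp h4
    · exact absurd h4 X_ne_zero
  have h3 := congrArg roots h2
  rwa [roots_multiset_prod_X_sub_C, roots_multiset_prod_X_sub_C] at h3

end Pool.Agent.PGF
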