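import Mathlib

/-!
# Arcs in a weighted cone

Definitions for MP_5b1cbc_ag, squad PGF (Theorem F).
-/

set_option autoImplicit false

open Polynomial

namespace Pool.Agent.PGF

/-- Let `J` be weighted homogeneous equations in the variables `x l` of weight `w l`, and `z` a
point of the cone `J = 0`. An arc of degree `e` through `z` with coefficients in the field `E` is
the curve `t ↦ (z l * p l (t))` in the cone `J = 0`, where `p l` is a polynomial of degree at most
`e * w l` with `p l (0) = 1`. -/
def IsArc {k σ : Type*} [Field k] (J : Set (MvPolynomial σ k)) (w : σ → ℕ) (e : ℕ) (z : σ → k)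
    {E : Type*} [Field E] [Algebra k E] (p : σ → E[X]) : Prop :=
  (∀ l, (p l).coeff 0 = 1) ∧ (∀ l, (p l).natDegree ≤ e * w l) ∧
    ∀ F ∈ J, MvPolynomial.aeval (fun l => C (algebraMap k E (z l)) * p l) F = 0

/-- The arc is constant as a map to the weighted projective space. -/
def IsConst {σ : Type*} (w : σ → ℕ) {E : Type*} [Field E] (p : σ → E[X]) : Prop :=
  ∀ l l', p l ^ w l' = p l' ^ w l

/-- The tuple `Q` of polynomials over `k` satisfies all the weighted homogeneous relations of the
coefficients of the tuple `P` (the coefficient of `X ^ j` has weight `j`). -/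
def SpecTo {k E A : Type*} [Field k] [Field E] [Algebra k E] (P : A → E[X]) (Q : A → k[X]) : Prop :=
  ∀ G : MvPolynomial (A × ℕ) k,
    MvPolynomial.aeval (fun s : A × ℕ => (C ((P s.1).coeff s.2) * X ^ s.2 : E[X])) G = 0 →
    MvPolynomial.aeval (fun s : A × ℕ => (Q s.1).coeff s.2) G = 0

/-- Arcs of degree `e` through `z`, in terms of the roots `S l` of the polynomial
`∏ (T - r)` (here `T = 1 / t`). -/
def MArc {k σ : Type*} [Field k] (J : Set (MvPolynomial σ k)) (w : σ → ℕ) (e : ℕ) (z : σ → k)
    {E : Type*} [Field E] [Algebra k E] (S : σ → Multiset E) : Prop :=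
  (∀ l, Multiset.card (S l) = e * w l) ∧
    ∀ F ∈ J, ∀ x : E,
      MvPolynomial.aeval (fun l => algebraMap k E (z l) * ((S l).map (fun r => x - r)).prod) F = 0

/-- constant arcs in terms of roots -/
def MConst {σ : Type*} (w : σ → ℕ) {E : Type*} (S : σ → Multiset E) : Prop :=
  ∀ l l', w l' • S l = w l • S l'

/-- (R1) every arc of degree less than `e` through `z` is constant. -/
def NoArc {k σ : Type*} [Field k] (J : Set (MvPolynomial σ k)) (w : σ → ℕ) (e : ℕ) (z : σ → k) :
    Prop :=
  ∀ e' < e, ∀ p : σ → k[X], IsArc J w e' z p → IsConst w p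

universe u

/-- (R2) there is a non-constant arc of degree `e` through `z` over some field `E` such that `N` of
its coefficients are algebraically independent over `k`, and along which `g i` is, up to a factor
`(s i) ^ (m i)`, a polynomial of degree at most `m i * ℓ i`. -/
def FreeArc {k : Type u} {σ ι : Type*} [Field k] (J : Set (MvPolynomial σ k)) (w : σ → ℕ)
    (e : ℕ) (g : ι → MvPolynomial σ k) (m ℓ : ι → ℕ) (N : ℕ) (z : σ → k) : Prop :=
  ∃ (E : Type u) (_ : Field E) (_ : Algebra k E) (p : σ → E[X]) (b s : ι → E[X]),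
    IsArc J w e z p ∧ ¬ IsConst w p ∧
    (∀ i, (b i).natDegree ≤ m i * ℓ i ∧ (b i).coeff 0 = 1 ∧ (s i).coeff 0 = 1 ∧
      MvPolynomial.aeval (fun l => C (algebraMap k E (z l)) * p l) (g i) =
        C (algebraMap k E (MvPolynomial.eval z (g i))) * (b i * s i ^ m i)) ∧
    ∃ c : Fin N → σ × ℕ, AlgebraicIndependent k (fun j => (p (c j).1).coeff (c j).2)

end Pool.Agent.PGF
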