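import Mathlib

/-!
# The equations of `V`, and the numerical condition
-/

set_option autoImplicit false

universe u

namespace Pool.Agent.PGF

/-- The ideal of the equations `F (x) = 0` (`F ∈ J`), `h j (x) = 0` and `(y i) ^ (m i) = g i (x)`
in the polynomial ring in the variables `x l` (`l : σ`) and `y i` (`i : ι`). -/
noncomputable def towerIdeal {k σ ι τ : Type*} [Field k] (J : Set (MvPolynomial σ k)) (m : ι → ℕ)
    (g : ι → MvPolynomial σ k) (h : τ → MvPolynomial σ k) : Ideal (MvPolynomial (σ ⊕ ι) k) :=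
  Ideal.span (MvPolynomial.rename (Sum.inl : σ → σ ⊕ ι) '' J ∪
    Set.range (fun j => MvPolynomial.rename (Sum.inl : σ → σ ⊕ ι) (h j)) ∪
    Set.range (fun i => MvPolynomial.X (Sum.inr i) ^ m i -
      MvPolynomial.rename (Sum.inl : σ → σ ⊕ ι) (g i)))

/-- The numerical condition: `∑ (m i - 1) * ℓ i + e * ∑ d j ≤ N`, and some `ℓ i ≥ 1` with
`m i` divisible by `3` or `4`, or some `ℓ i ≥ 2` with `m i` even, or two `ℓ i ≥ 1` with `m i` even;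
or strict inequality and some `ℓ i ≥ 1`. -/
def NumF {ι τ : Type*} [Fintype ι] [Fintype τ] (m ℓ : ι → ℕ) (d : τ → ℕ) (e N : ℕ) : Prop :=
  (∑ i, m i * ℓ i + e * ∑ j, d j ≤ N + ∑ i, ℓ i ∧
    ((∃ i, 1 ≤ ℓ i ∧ (3 ∣ m i ∨ 4 ∣ m i)) ∨ (∃ i, 2 ≤ ℓ i ∧ 2 ∣ m i) ∨
      ∃ i i', i ≠ i' ∧ 2 ∣ m i ∧ 2 ∣ m i' ∧ 1 ≤ ℓ i ∧ 1 ≤ ℓ i')) ∨
  (∑ i, m i * ℓ i + e * ∑ j, d j < N + ∑ i, ℓ i ∧ ∃ i, 1 ≤ ℓ i)

/-- the Plücker coordinates of the Grassmannian `G(2, n)` -/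
abbrev Pairs (n : ℕ) : Type := {p : Fin n × Fin n // p.1 < p.2}

/-- the Plücker relations `x_ij x_ab - x_ia x_jb + x_ib x_ja` for `i < j < a < b` -/
def plucker (k : Type u) [Field k] (n : ℕ) : Set (MvPolynomial (Pairs n) k) :=
  {F | ∃ (i j a b : Fin n) (hij : i < j) (hja : j < a) (hab : a < b),
    F = MvPolynomial.X ⟨(i, j), hij⟩ * MvPolynomial.X ⟨(a, b), hab⟩ -
      MvPolynomial.X ⟨(i, a), hij.trans hja⟩ * MvPolynomial.X ⟨(j, b), hja.trans hab⟩ +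
      MvPolynomial.X ⟨(i, b), (hij.trans hja).trans hab⟩ * MvPolynomial.X ⟨(j, a), hja⟩}

end Pool.Agent.PGF
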