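import Pool.Agent.Helper45_PGE.MainH
import Pool.Agent.Helper45_PGF.Defs
import Pool.Agent.Helper45_PGF.Eqs

/-!
Statements of the modules of squad PGF.
-/

set_option autoImplicit false

open Polynomial CategoryTheory AlgebraicGeometry

universe u v v₁ v₂ v₃ v₄

namespace Pool.Agent.PGF

/-- GD: graded dimension count. -/
def GDStmt : Prop := ∀ (k : Type u) (E : Type v) [Field k] [IsAlgClosed k] [Field E] [Algebra k E]
  (S : Type v₁) (Θ : Type v₂) (T : Type v₃) [Fintype S] [Fintype Θ] [Fintype T]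
  (ω : S → ℕ) (ω' : Θ → ℕ) (a : S → E) (N : ℕ) (c : Fin N → S) (n : T → ℕ)
  (F : T → MvPolynomial (S ⊕ Θ) k),
  (∀ s, 0 < ω s) → (∀ θ, 0 < ω' θ) → AlgebraicIndependent k (fun j => a (c j)) →
  (∀ t, 0 < n t) → (∀ t, (F t).IsWeightedHomogeneous (Sum.elim ω ω') (n t)) →
  Fintype.card T < N + Fintype.card Θ →
  ∃ v : S ⊕ Θ → k, v ≠ 0 ∧ (∀ t, MvPolynomial.aeval v (F t) = 0) ∧
    ∀ G : MvPolynomial S k,
      MvPolynomial.aeval (fun s => (C (a s) * X ^ ω s : E[X])) G = 0 →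
      MvPolynomial.aeval (fun s => v (Sum.inl s)) G = 0

/-- GM: specialization of a tuple `P` of polynomials with constant term one, together with free
polynomials, subject to equations `G t`. -/
def GMStmt : Prop := ∀ (k : Type u) (E : Type v) [Field k] [IsAlgClosed k] [Field E] [Algebra k E]
  (A₁ : Type v₁) (A₂ : Type v₂) (T : Type v₃) [Fintype A₁] [Fintype A₂] [Fintype T]
  (D₁ : A₁ → ℕ) (D₂ : A₂ → ℕ) (P : A₁ → E[X]) (N : ℕ) (c : Fin N → A₁ × ℕ) (n : T → ℕ)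
  (G : T → MvPolynomial (A₁ ⊕ A₂) k) (α₀ : A₁),
  0 < D₁ α₀ → (∀ α, (P α).coeff 0 = 1) → (∀ α, (P α).natDegree ≤ D₁ α) →
  AlgebraicIndependent k (fun j => (P (c j).1).coeff (c j).2) →
  (∀ t (Q : A₁ ⊕ A₂ → k[X]), (∀ α, (Q α).natDegree ≤ Sum.elim D₁ D₂ α) →
    (MvPolynomial.aeval Q (G t)).natDegree ≤ n t) →
  (∀ t, MvPolynomial.eval (fun _ => 1) (G t) = 0) →
  ∑ t, n t + 1 < N + ∑ α, D₂ α →
  ∃ Q : A₁ ⊕ A₂ → k[X], (∀ α, (Q α).coeff 0 = 1) ∧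
    (∀ α, (Q α).natDegree ≤ Sum.elim D₁ D₂ α) ∧ (∀ t, MvPolynomial.aeval Q (G t) = 0) ∧
    (Q (Sum.inl α₀)).coeff 1 = 0 ∧ (∃ α, Q α ≠ 1) ∧ SpecTo P (fun α => Q (Sum.inl α))

/-- VAL: a valuation ring which induces the specialization. -/
def VALStmt : Prop := ∀ (k E : Type u) [Field k] [Field E] [Algebra k E] (A : Type v)
  (P : A → E[X]) (Q : A → k[X]), SpecTo P Q →
  ∃ (K : Type u) (_ : Field K) (_ : IsAlgClosed K) (_ : Algebra k K) (i : E[X] →ₐ[k] K)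
    (O : ValuationSubring K), Function.Injective i ∧ (∀ c : k, algebraMap k K c ∈ O) ∧
    ∀ (α : A) (j : ℕ), i (C ((P α).coeff j) * X ^ j) ∈ O ∧
      O.valuation (i (C ((P α).coeff j) * X ^ j) - algebraMap k K ((Q α).coeff j)) < 1

/-- the residue map, extended by zero. -/
noncomputable def red {K κ : Type*} [Field K] [Field κ] (O : ValuationSubring K) (res : O →+* κ)
    (x : K) : κ := by
  classical
  exact if h : x ∈ O then res ⟨x, h⟩ else 0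

/-- BUBC: the bubble lemma, in terms of roots. -/
def BUBCStmt : Prop := ∀ (k : Type u) (K : Type v) (κ : Type v₁) (σ : Type v₂) [Field k]
  [IsAlgClosed k] [Field K] [Field κ] [Algebra k K] [Algebra k κ] [Fintype σ]
  (O : ValuationSubring K) (res : O →+* κ)
  (hO : ∀ c : k, algebraMap k K c ∈ O) (w : σ → ℕ) (J : Set (MvPolynomial σ k)) (z : σ → k)
  (e : ℕ) (S : σ → Multiset K),
  Function.Surjective res → (∀ x : O, res x = 0 ↔ O.valuation (x : K) < 1) →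
  (∀ c : k, res ⟨algebraMap k K c, hO c⟩ = algebraMap k κ c) →
  Finset.univ.gcd w = 1 → (∀ F ∈ J, ∃ n, F.IsWeightedHomogeneous w n) →
  MArc J w e z S → ¬ MConst w S → (∀ l, ∀ r ∈ S l, r ∈ O) →
  MConst w (fun l => (S l).map (red O res)) → (∀ c : κ, ∃ l, ∃ r ∈ S l, red O res r ≠ c) →
  ∃ e' < e, (∃ S' : σ → Multiset K, MArc J w e' z S' ∧ ¬ MConst w S') ∨
    (∃ S' : σ → Multiset κ, MArc J w e' z S' ∧ ¬ MConst w S')

/-- CNV1: from polynomials to roots. -/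
def CNV1Stmt : Prop := ∀ (k : Type u) (K : Type v) (σ : Type v₂) [Field k] [Field K]
  [IsAlgClosed K] [Algebra k K] (w : σ → ℕ) (J : Set (MvPolynomial σ k)) (z : σ → k) (e : ℕ)
  (p : σ → K[X]), (∀ F ∈ J, ∃ n, F.IsWeightedHomogeneous w n) → IsArc J w e z p →
  ∃ S : σ → Multiset K, MArc J w e z S ∧
    (∀ l, p l = ((S l).map (fun r => 1 - C r * X)).prod) ∧ (MConst w S → IsConst w p)

/-- CNV2: from roots over an extension to polynomials over `k`. -/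
def CNV2Stmt : Prop := ∀ (k : Type u) (K : Type v) (σ : Type v₂) [Field k] [IsAlgClosed k]
  [Field K] [Algebra k K] [Fintype σ] (w : σ → ℕ) (J : Set (MvPolynomial σ k)) (z : σ → k)
  (e : ℕ) (S : σ → Multiset K), (∀ F ∈ J, ∃ n, F.IsWeightedHomogeneous w n) →
  MArc J w e z S → ¬ MConst w S → ∃ p : σ → k[X], IsArc J w e z p ∧ ¬ IsConst w p

/-- BUB: the bubble lemma. -/
def BUBStmt : Prop := ∀ (k E : Type u) (σ : Type v₂) [Field k] [IsAlgClosed k] [Field E]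
  [Algebra k E] [Fintype σ] (w : σ → ℕ) (J : Set (MvPolynomial σ k)) (z : σ → k) (e : ℕ)
  (P : σ → E[X]) (Q : σ → k[X]), Finset.univ.gcd w = 1 →
  (∀ F ∈ J, ∃ n, F.IsWeightedHomogeneous w n) → IsArc J w e z P → ¬ IsConst w P → SpecTo P Q →
  (∀ l, (Q l).natDegree ≤ e * w l) → (∀ l, (Q l).coeff 0 = 1) → IsConst w Q →
  (∀ c : k, ∃ l, Q l ≠ (1 + C c * X) ^ (e * w l)) →
  ∃ e' < e, ∃ p : σ → k[X], IsArc J w e' z p ∧ ¬ IsConst w p

/-- SOL: a non-constant arc with prescribed contact with the branch divisors. -/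
def SOLStmt : Prop := ∀ (k : Type u) [Field k] [IsAlgClosed k] [CharZero k] (σ : Type v₁)
  (ι : Type v₂) (τ : Type v₃) [Fintype σ] [Fintype ι] [Fintype τ] (w : σ → ℕ)
  (J : Set (MvPolynomial σ k)) (e N : ℕ) (m ℓ r n : ι → ℕ) (cc : ι → ℕ → ℕ) (d : τ → ℕ)
  (g : ι → MvPolynomial σ k) (h : τ → MvPolynomial σ k) (z : σ → k),
  Finset.univ.gcd w = 1 → (∀ F ∈ J, ∃ n, F.IsWeightedHomogeneous w n) →
  (∀ j, (h j).IsWeightedHomogeneous w (d j)) → (∀ i, m i ≠ 0) →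
  (∀ i, r i ≤ ℓ i) → (∀ i, ∑ q ∈ Finset.range (n i), cc i q = m i * r i) →
  (∀ i q, q < n i → cc i q ≠ 0) →
  ∑ i, m i * ℓ i + e * ∑ j, d j + ∑ i, r i + 1 < N + ∑ i, ℓ i + ∑ i, n i →
  NoArc J w e z → FreeArc J w e g m ℓ N z →
  (∀ j, MvPolynomial.eval z (h j) = 0) → (∀ i, MvPolynomial.eval z (g i) ≠ 0) →
  ∃ (p : σ → k[X]) (b : ι → k[X]) (β : ι → ℕ → k), IsArc J w e z p ∧ ¬ IsConst w p ∧
    (∀ j, MvPolynomial.aeval (fun l => C (z l) * p l) (h j) = 0) ∧ (∀ i, (b i).coeff 0 = 1) ∧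
    ∀ i, MvPolynomial.aeval (fun l => C (z l) * p l) (g i) =
      C (MvPolynomial.eval z (g i)) * (b i ^ m i *
        ∏ q ∈ Finset.range (n i), (1 + C (β i q) * X) ^ cc i q)

/-- the arcs together with their function field. -/
def ArcF {k : Type u} [Field k] [IsAlgClosed k] {σ ι τ : Type*} (J : Set (MvPolynomial σ k))
    (w : σ → ℕ) (m : ι → ℕ) (g : ι → MvPolynomial σ k) (h : τ → MvPolynomial σ k)
    (z : σ → k) (y : ι → k) : Prop :=
  ∃ (L : IntermediateField k (LaurentSeries k))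
    (ψ : MvPolynomial (σ ⊕ ι) k →ₐ[k] PowerSeries k), PGE.Good k L ∧
    (∀ p, (ψ p : LaurentSeries k) ∈ L) ∧
    (∀ p, PowerSeries.constantCoeff (ψ p) = MvPolynomial.eval (Sum.elim z y) p) ∧
    (∀ F ∈ J, ψ (MvPolynomial.rename Sum.inl F) = 0) ∧
    (∀ j, ψ (MvPolynomial.rename Sum.inl (h j)) = 0) ∧
    (∀ i, ψ (MvPolynomial.X (Sum.inr i) ^ m i - MvPolynomial.rename Sum.inl (g i)) = 0) ∧
    ∃ x : σ → k[X], (∀ l, ψ (MvPolynomial.X (Sum.inl l)) = (C (z l) * x l : k[X])) ∧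
      (∀ l, (x l).coeff 0 = 1) ∧ ¬ IsConst w x

/-- FARC: from SOL and FLD to arcs with their function fields. -/
def FARCStmt : Prop := ∀ (k : Type u) [Field k] [IsAlgClosed k] [CharZero k] (σ : Type v₁)
  (ι : Type v₂) (τ : Type v₃) [Fintype σ] [Fintype ι] [Fintype τ] (w : σ → ℕ)
  (J : Set (MvPolynomial σ k)) (e N : ℕ) (m ℓ : ι → ℕ) (d : τ → ℕ)
  (g : ι → MvPolynomial σ k) (h : τ → MvPolynomial σ k) (z : σ → k) (y : ι → k),
  Finset.univ.gcd w = 1 → (∀ F ∈ J, ∃ n, F.IsWeightedHomogeneous w n) →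
  (∀ j, (h j).IsWeightedHomogeneous w (d j)) → (∀ i, 2 ≤ m i) → NumF m ℓ d e N →
  NoArc J w e z → FreeArc J w e g m ℓ N z →
  (∀ j, MvPolynomial.eval z (h j) = 0) →
  (∀ i, y i ≠ 0 ∧ y i ^ m i = MvPolynomial.eval z (g i)) → ArcF J w m g h z y

/-- MAINF: Theorem F. -/
def MAINFStmt : Prop := ∀ (k : Type u) [Field k] [IsAlgClosed k] [CharZero k] (X : Scheme.{u})
  (f : X ⟶ Spec (.of k)) [IsIntegral X] [IsProper f] (σ : Type v₁) (ι : Type v₂) (τ : Type v₃)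
  [Fintype σ] [Fintype ι] [Fintype τ] (w : σ → ℕ) (J : Set (MvPolynomial σ k)) (m a ℓ : ι → ℕ)
  (d : τ → ℕ) (e N : ℕ) (g : ι → MvPolynomial σ k) (h : τ → MvPolynomial σ k) (K : Type v₄)
  [Field K] (θ : X.functionField →+* K) (x : σ → K) (y : ι → K),
  Finset.univ.gcd w = 1 →
  (∀ F ∈ J, ∃ n, F.IsWeightedHomogeneous w n) →
  (∀ i, 2 ≤ m i) →
  (∀ i, (g i).IsWeightedHomogeneous w (m i * a i)) →
  (∀ j, (h j).IsWeightedHomogeneous w (d j)) →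
  (∀ l, x l ≠ 0) → (∀ i, y i ≠ 0) →
  RingHom.ker (MvPolynomial.eval₂Hom (θ.comp (PGH.constants k f)) (Sum.elim x y)) ∈
    (towerIdeal J m g h).minimalPrimes →
  (∀ κ, θ κ ∈ PGE.homFrac (θ.comp (PGH.constants k f)) (Sum.elim w a) (Sum.elim x y)) →
  (∀ κ ∈ PGE.homFrac (θ.comp (PGH.constants k f)) (Sum.elim w a) (Sum.elim x y),
    ∃ F : X.functionField[X], F ≠ 0 ∧ F.eval₂ θ κ = 0) →
  (∃ q : MvPolynomial (σ ⊕ ι) k,
    q.eval₂ (θ.comp (PGH.constants k f)) (Sum.elim x y) ≠ 0 ∧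
    ∀ (z : σ → k) (y₀ : ι → k),
      (∀ F : MvPolynomial (σ ⊕ ι) k, F.eval₂ (θ.comp (PGH.constants k f)) (Sum.elim x y) = 0 →
        MvPolynomial.eval (Sum.elim z y₀) F = 0) →
      MvPolynomial.eval (Sum.elim z y₀) q ≠ 0 → NoArc J w e z ∧ FreeArc J w e g m ℓ N z) →
  NumF m ℓ d e N →
  ¬ PGH.IsPGH k f

end Pool.Agent.PGF
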