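import Pool.Agent.Helper45_PGF.Basic
import Pool.Agent.Helper45_PGF.Stmts
import Pool.Agent.Helper45_PGF.ProdInj

/-!
Module BUB: the bubble lemma from VAL, BUBC, CNV.
-/

set_option autoImplicit false

open Polynomial

universe u v₂

namespace Pool.Agent.PGF

lemma exists_pos {σ : Type*} [Fintype σ] (w : σ → ℕ) (hw : Finset.univ.gcd w = 1) :
    ∃ l, 0 < w l := by
  by_contra hno
  push Not at hno
  have h1 : Finset.univ.gcd w = 0 := by
    rw [Finset.gcd_eq_zero_iff]
    intro l _
    have := hno l
    omega
  rw [h1] at hw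
  exact zero_ne_one hw

theorem bub (hV : VALStmt.{u, v₂}) (hB : BUBCStmt.{u, u, u, v₂}) (hC1 : CNV1Stmt.{u, u, v₂})
    (hC2 : CNV2Stmt.{u, u, v₂}) : BUBStmt.{u, v₂} := by
  intro k E σ _ _ _ _ _ w J z e P Q hw hJ hP hPc hS hQd hQ0 hQc hQ2
  classical
  obtain ⟨K, iK, iKa, iKk, i, O, hi, hO, hval⟩ := hV k E σ P Q hS
  -- the scaled arc
  let φ : E[X] →ₐ[k] K[X] := (Polynomial.mapAlgHom i).comp (scaleHom k E)
  have hφc : ∀ p j, (φ p).coeff j = i (C (p.coeff j) * X ^ j) := by
    intro p j
    change ((scaleHom k E p).map (i : E[X] →+* K)).coeff j = _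
    rw [coeff_map, scaleHom_coeff]
    rfl
  have hφinj : Function.Injective φ := by
    rw [injective_iff_map_eq_zero]
    intro p hp
    ext j
    have h1 := hφc p j
    rw [hp, coeff_zero] at h1
    have h2 := hi (h1.symm.trans (map_zero i).symm)
    have h3 := congrArg (fun q => q.coeff j) h2
    simpa using h3
  have hφC : ∀ c : k, φ (C (algebraMap k E c)) = C (algebraMap k K c) := by
    intro c
    exact φ.commutes c
  have hP' : IsArc J w e z (fun l => φ (P l)) := by
    refine ⟨fun l => ?_, fun l => ?_, fun F hF => ?_⟩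
    · change (φ (P l)).coeff 0 = 1
      rw [hφc, hP.1 l]
      simp
    · change (φ (P l)).natDegree ≤ e * w l
      rw [natDegree_le_iff_coeff_eq_zero]
      intro n hn
      rw [hφc, coeff_eq_zero_of_natDegree_lt ((hP.2.1 l).trans_lt hn)]
      simp
    · have h1 := hP.2.2 F hF
      have h2 := MvPolynomial.comp_aeval_apply (R := k)
        (f := fun l => C (algebraMap k E (z l)) * P l) φ F
      rw [h1, map_zero] at h2
      rw [h2]
      congr 2
      funext l
      rw [map_mul, hφC]
  obtain ⟨S, hSM, hSP, hSc⟩ := hC1 k K σ w J z e _ hJ hP'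
  have hSnc : ¬ MConst w S := by
    intro h
    refine hPc fun l l' => hφinj ?_
    rw [map_pow, map_pow]
    exact hSc h l l'
  -- the roots are integral
  have hvc : ∀ l j, O.valuation ((φ (P l)).coeff j) ≤ 1 := by
    intro l j
    rw [hφc, ValuationSubring.valuation_le_one_iff]
    exact (hval l j).1
  have hSO : ∀ l, ∀ r ∈ S l, r ∈ O := by
    intro l r hr
    by_contra hrO
    have hr0 : r ≠ 0 := by
      rintro rfl
      exact hrO O.zero_mem
    have hv : O.valuation r⁻¹ < 1 := by
      rw [map_inv₀]
      have h1 : 1 < O.valuation r := by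
        rw [← not_le, ValuationSubring.valuation_le_one_iff]
        exact hrO
      exact inv_lt_one_of_one_lt₀ h1
    have h1 : (φ (P l)).eval r⁻¹ = 0 := by
      have h2 : φ (P l) = ((S l).map (fun r => 1 - C r * X)).prod := hSP l
      rw [h2, eval_multiset_prod, Multiset.prod_eq_zero]
      rw [Multiset.map_map, Multiset.mem_map]
      refine ⟨r, hr, ?_⟩
      simp [hr0]
    have h2 : (φ (P l)).eval r⁻¹ = 1 + ∑ j ∈ Finset.range (φ (P l)).natDegree,
        (φ (P l)).coeff (j + 1) * r⁻¹ ^ (j + 1) := by
      rw [eval_eq_sum_range, Finset.sum_range_succ']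
      have h3 : (φ (P l)).coeff 0 = 1 := hP'.1 l
      rw [h3]
      ring
    rw [h1] at h2
    have h3 : O.valuation (∑ j ∈ Finset.range (φ (P l)).natDegree,
        (φ (P l)).coeff (j + 1) * r⁻¹ ^ (j + 1)) < 1 := by
      refine Valuation.map_sum_lt _ one_ne_zero fun j _ => ?_
      rw [map_mul, map_pow]
      calc O.valuation ((φ (P l)).coeff (j + 1)) * O.valuation r⁻¹ ^ (j + 1) ≤
          1 * O.valuation r⁻¹ ^ (j + 1) := mul_le_mul_left (hvc l (j + 1)) _
        _ < 1 := by
          rw [one_mul]
          exact pow_lt_one₀ zero_le hv (Nat.succ_ne_zero j)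
    have h4 : (∑ j ∈ Finset.range (φ (P l)).natDegree,
        (φ (P l)).coeff (j + 1) * r⁻¹ ^ (j + 1)) = -1 := by
      linear_combination -h2
    rw [h4, Valuation.map_neg, map_one] at h3
    exact lt_irrefl _ h3
  -- the residue field
  let κ := IsLocalRing.ResidueField O
  let res : O →+* κ := IsLocalRing.residue O
  let ι : k →+* O := (algebraMap k K).codRestrict O.toSubring hO
  letI : Algebra k κ := (res.comp ι).toAlgebra
  have hres : ∀ x : O, res x = 0 ↔ O.valuation (x : K) < 1 := by
    intro x
    rw [← ValuationSubring.valuation_lt_one_iff]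
    exact IsLocalRing.residue_eq_zero_iff x
  have hresk : ∀ c : k, res ⟨algebraMap k K c, hO c⟩ = algebraMap k κ c := fun c => rfl
  have hredO : ∀ x : O, red O res (x : K) = res x := by
    intro x
    unfold red
    rw [dif_pos x.2]
  -- the reduction of the roots
  have hlift : ∀ l, ∃ S' : Multiset O, S'.map Subtype.val = S l := by
    intro l
    refine ⟨(S l).attach.map (fun r => ⟨r.1, hSO l r.1 r.2⟩), ?_⟩
    rw [Multiset.map_map]
    exact Multiset.attach_map_val _
  choose S' hS' using hlift
  have hred : ∀ l, (S l).map (red O res) = (S' l).map res := by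
    intro l
    rw [← hS' l, Multiset.map_map]
    exact Multiset.map_congr rfl fun x _ => hredO x
  have hQκ : ∀ l, (Q l).map (algebraMap k κ) =
      (((S l).map (red O res)).map (fun r => 1 - C r * X)).prod := by
    intro l
    let R : Polynomial O := ((S' l).map (fun r => 1 - C r * X)).prod
    have h1 : R.map O.subtype = φ (P l) := by
      have h2 : φ (P l) = ((S l).map (fun r => 1 - C r * X)).prod := hSP l
      rw [h2, ← hS' l, Multiset.map_map, Polynomial.map_multiset_prod, Multiset.map_map]
      congr 1
      refine Multiset.map_congr rfl fun x _ => ?_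
      simp
    have h2 : R.map res = (((S l).map (red O res)).map (fun r => 1 - C r * X)).prod := by
      rw [hred l, Multiset.map_map, Polynomial.map_multiset_prod, Multiset.map_map]
      congr 1
      refine Multiset.map_congr rfl fun x _ => ?_
      simp
    rw [← h2]
    ext j
    rw [coeff_map, coeff_map]
    have h3 : ((R.coeff j : O) : K) = i (C ((P l).coeff j) * X ^ j) := by
      rw [← hφc, ← h1, coeff_map]
      rfl
    have h4 : res (R.coeff j - ⟨algebraMap k K ((Q l).coeff j), hO _⟩) = 0 := by
      rw [hres]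
      change O.valuation ((R.coeff j : K) - algebraMap k K ((Q l).coeff j)) < 1
      rw [h3]
      exact (hval l j).2
    rw [map_sub, sub_eq_zero, hresk] at h4
    exact h4.symm
  have hκinj : Function.Injective (algebraMap k κ) := (algebraMap k κ).injective
  haveI : Infinite k := IsAlgClosed.instInfinite
  haveI : Infinite κ := Infinite.of_injective _ hκinj
  have hMc : MConst w (fun l => (S l).map (red O res)) := by
    intro l l'
    apply prod_inj
    · simp only [Multiset.card_nsmul, Multiset.card_map, smul_eq_mul, hSM.1]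
      ring
    · simp only [Multiset.map_nsmul, Multiset.prod_nsmul]
      rw [← hQκ, ← hQκ, ← Polynomial.map_pow, ← Polynomial.map_pow, hQc l l']
  have h2v : ∀ c : κ, ∃ l, ∃ r ∈ S l, red O res r ≠ c := by
    intro c
    by_contra hno
    push Not at hno
    have h1 : ∀ l, (Q l).map (algebraMap k κ) = (1 - C c * X) ^ (e * w l) := by
      intro l
      rw [hQκ, Multiset.map_map]
      have h2 : (S l).map ((fun r => (1 - C r * X : κ[X])) ∘ red O res) =
          (S l).map (fun _ => (1 - C c * X : κ[X])) :=
        Multiset.map_congr rfl fun r hr => by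
          rw [Function.comp_apply, hno l r hr]
      rw [h2, Multiset.map_const', Multiset.prod_replicate, hSM.1]
    have h2 : ∃ c₀ : k, ∀ l, (Q l).map (algebraMap k κ) =
        (1 - C (algebraMap k κ c₀) * X) ^ (e * w l) := by
      by_cases he : e = 0
      · refine ⟨0, fun l => ?_⟩
        rw [h1, he, zero_mul, pow_zero, pow_zero]
      · obtain ⟨l₀, hl₀⟩ := exists_pos w hw
        obtain ⟨c₀, hc₀⟩ : ∃ c₀, algebraMap k κ c₀ = c := by
          by_cases hc : c = 0
          · exact ⟨0, by rw [hc, map_zero]⟩
          · obtain ⟨c₁, hc₁⟩ : ∃ c₁, algebraMap k κ c₁ = c⁻¹ := by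
              refine PGE.mem_range_of_isAlgebraic _ ⟨Q l₀, ?_, ?_⟩
              · intro h
                have := hQ0 l₀
                rw [h, coeff_zero] at this
                exact zero_ne_one this
              · have h3 : (Polynomial.aeval c⁻¹ (Q l₀)) =
                  ((Q l₀).map (algebraMap k κ)).eval c⁻¹ := by
                  rw [Polynomial.eval_map_algebraMap]
                rw [h3, h1, eval_pow]
                have h4 : (1 - C c * X : κ[X]).eval c⁻¹ = 0 := by
                  rw [eval_sub, eval_one, eval_mul, eval_C, eval_X, mul_inv_cancel₀ hc, sub_self]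
                rw [h4, zero_pow (Nat.mul_ne_zero he hl₀.ne')]
            refine ⟨c₁⁻¹, ?_⟩
            rw [map_inv₀, hc₁, inv_inv]
        exact ⟨c₀, fun l => by rw [h1, hc₀]⟩
    obtain ⟨c₀, hc₀⟩ := h2
    obtain ⟨l, hl⟩ := hQ2 (-c₀)
    refine hl (Polynomial.map_injective _ hκinj ?_)
    rw [hc₀, Polynomial.map_pow, Polynomial.map_add, Polynomial.map_mul, map_C, map_X,
      Polynomial.map_one, map_neg, C_neg]
    congr 1
    ring
  obtain ⟨e', he', h | h⟩ := hB k K κ σ O res hO w J z e S IsLocalRing.residue_surjective hres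
    hresk hw hJ hSM hSnc hSO hMc h2v
  · obtain ⟨T, hT, hTc⟩ := h
    exact ⟨e', he', hC2 k K σ w J z e' T hJ hT hTc⟩
  · obtain ⟨T, hT, hTc⟩ := h
    exact ⟨e', he', hC2 k κ σ w J z e' T hJ hT hTc⟩

end Pool.Agent.PGF
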