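import Pool.Agent.Helper45_PGF.CoreF

/-!
Module MAINF: Theorem F from the arcs.
-/

set_option autoImplicit false

open CategoryTheory AlgebraicGeometry Polynomial

universe u v₁ v₂ v₃ v₄

namespace Pool.Agent.PGF

open Pool.Agent.PGE

theorem mainf (hA : FARCStmt.{u, v₁, v₂, v₃}) (hC : COVStmt.{u}) :
    MAINFStmt.{u, v₁, v₂, v₃, v₄} := by
  intro k _ _ _ X f _ _ σ ι τ _ _ _ w J m a ℓ d eN N g h K _ θ x y hw hJ hm hg hh hx hy hP hθ hfin
    hq hnum
  obtain ⟨q, hq0, hq⟩ := hq
  refine hC k X f ?_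
  intro Z hZ hZ1
  obtain ⟨z, hz⟩ : ∃ z, z ∉ Z := (Set.ne_univ_iff_exists_notMem Z).mp hZ1
  let V : X.Opens := ⟨Zᶜ, hZ.isOpen_compl⟩
  obtain ⟨U, hU, hzU, hUV⟩ := exists_isAffineOpen_mem_and_subset (x := z) (U := V) hz
  have hne : Nonempty U := ⟨⟨z, hzU⟩⟩
  have hfr : IsFractionRing Γ(X, U) X.functionField :=
    functionField_isFractionRing_of_isAffineOpen X U hU
  let γ : k →+* Γ(X, U) := ((Scheme.ΓSpecIso (.of k)).inv ≫ f.appTop ≫
    X.presheaf.map (homOfLE (le_top : U ≤ ⊤)).op).hom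
  have hγ : γ.FiniteType := by
    have h1 : (f.appLE ⊤ U le_top).hom.FiniteType :=
      f.finiteType_appLE (isAffineOpen_top _) hU le_top
    have h2 : γ = (f.appLE ⊤ U le_top).hom.comp ((Scheme.ΓSpecIso (.of k)).inv).hom := rfl
    rw [h2]
    refine RingHom.FiniteType.comp h1 (RingHom.FiniteType.of_surjective _ ?_)
    exact (ConcreteCategory.bijective_of_isIso ((Scheme.ΓSpecIso (.of k)).inv)).2
  have hj : Function.Injective (X.germToFunctionField U).hom :=
    Scheme.germToFunctionField_injective X U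
  have hjφ : ∀ c, (X.germToFunctionField U).hom (γ c) = PGH.constants k f c := by
    intro c
    have h1 : X.presheaf.map (homOfLE (le_top : U ≤ ⊤)).op ≫ X.germToFunctionField U =
        X.presheaf.germ ⊤ (genericPoint X) trivial := by
      exact X.presheaf.germ_res _ _ _
    change ((Scheme.ΓSpecIso (.of k)).inv ≫ f.appTop ≫
      X.presheaf.map (homOfLE (le_top : U ≤ ⊤)).op ≫ X.germToFunctionField U).hom c = _
    rw [h1]
    rfl
  set e : MvPolynomial (σ ⊕ ι) k →+* K :=
    MvPolynomial.eval₂Hom (θ.comp (PGH.constants k f)) (Sum.elim x y) with he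
  have heX : ∀ s, e (MvPolynomial.X s) = Sum.elim x y s := fun s => by
    rw [he]; exact MvPolynomial.eval₂Hom_X' _ _ _
  obtain ⟨L, iL, aL, hgood, Ψ, hΨ, hΨt⟩ := coreF (PGH.constants k f) γ hγ
    (X.germToFunctionField U).hom hjφ (by
      intro κ
      obtain ⟨p, q, hq, hpq⟩ := IsFractionRing.div_surjective (A := Γ(X, U)) κ
      have hq' : (X.germToFunctionField U).hom q ≠ 0 := by
        intro h1
        refine nonZeroDivisors.ne_zero hq ?_
        apply hj
        rw [h1, map_zero]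
      refine ⟨p, q, hq', ?_⟩
      rw [← hpq]
      exact div_mul_cancel₀ _ hq')
    θ w J m g h e (by
      intro c
      rw [he]
      exact MvPolynomial.eval₂Hom_C _ _ _) q hq0 (by
      intro z₀ y₀ hz₀ hq₀ hh₀ hy₀
      obtain ⟨h1, h2⟩ := hq z₀ y₀ hz₀ hq₀
      exact hA k σ ι τ w J eN N m ℓ d g h z₀ y₀ hw hJ hh hm hnum h1 h2 hh₀ hy₀) (by
      intro κ
      obtain ⟨n, p, q, -, -, h2, h1⟩ := hθ κ
      refine ⟨p, q, h2, ?_⟩
      rw [h1]
      exact div_mul_cancel₀ _ h2) (by
      intro l l'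
      have h1 : e (MvPolynomial.X (Sum.inl l)) ^ w l' /
          e (MvPolynomial.X (Sum.inl l')) ^ w l ∈
          homFrac (θ.comp (PGH.constants k f)) (Sum.elim w a) (Sum.elim x y) := by
        refine ⟨w l * w l', MvPolynomial.X (Sum.inl l) ^ w l', MvPolynomial.X (Sum.inl l') ^ w l,
          ?_, ?_, ?_, ?_⟩
        · have h2 := (MvPolynomial.isWeightedHomogeneous_X k (Sum.elim w a)
            (Sum.inl l : σ ⊕ ι)).pow (w l')
          rw [smul_eq_mul, mul_comm] at h2
          exact h2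
        · have h2 := (MvPolynomial.isWeightedHomogeneous_X k (Sum.elim w a)
            (Sum.inl l' : σ ⊕ ι)).pow (w l)
          rw [smul_eq_mul] at h2
          exact h2
        · change e _ ≠ 0
          rw [map_pow, heX]
          exact pow_ne_zero _ (hx l')
        · change _ = e _ / e _
          rw [map_pow, map_pow]
      exact hfin _ h1) (by
      intro s
      rw [heX]
      rcases s with s | s
      · exact hx s
      · exact hy s)
    hP
  refine ⟨U, hU, ⟨z, hzU⟩, ?_, L, iL, aL, hgood, Ψ, ?_, hΨt⟩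
  · rw [Set.disjoint_left]
    intro v hv hv'
    exact hUV hv hv'
  · intro c
    exact hΨ c

end Pool.Agent.PGF
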