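import Pool.Agent.Helper45_PGF.Defs
import Pool.Agent.Helper45_PGE.Arc

/-!
Basic lemmas on `SpecTo`.
-/

set_option autoImplicit false

open Polynomial

namespace Pool.Agent.PGF

section

variable {k E A : Type*} [Field k] [Field E] [Algebra k E]

/-- the scaling `T ↦ c T` -/
noncomputable def scaleHom (k E : Type*) [Field k] [Field E] [Algebra k E] :
    E[X] →ₐ[k] E[X][X] :=
  { Polynomial.eval₂RingHom ((C : E[X] →+* E[X][X]).comp (C : E →+* E[X]))
      (C (X : E[X]) * X) with
    commutes' := by
      intro c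
      simp [Polynomial.algebraMap_apply] }

lemma scaleHom_coeff (p : E[X]) (j : ℕ) : (scaleHom k E p).coeff j = C (p.coeff j) * X ^ j := by
  have h : scaleHom k E p = p.eval₂ ((C : E[X] →+* E[X][X]).comp (C : E →+* E[X]))
    (C (X : E[X]) * X) := rfl
  rw [h, eval₂_eq_sum, sum_def, finsetSum_coeff]
  simp only [mul_pow, ← C_pow, RingHom.comp_apply, ← mul_assoc, ← C_mul, coeff_C_mul, coeff_X_pow]
  by_cases hj : p.coeff j = 0
  · rw [hj]
    simp only [C_0, zero_mul]
    refine Finset.sum_eq_zero fun n hn => ?_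
    rw [if_neg, mul_zero]
    rintro rfl
    exact (mem_support_iff.mp hn) hj
  · rw [Finset.sum_eq_single j]
    · simp
    · intro b _ hb
      rw [if_neg (Ne.symm hb), mul_zero]
    · intro h
      exact absurd (mem_support_iff.mpr hj) h

/-- the universal polynomial of degree at most `D` -/
noncomputable def univP (k : Type*) [Field k] {A : Type*} (D : ℕ) (α : A) :
    (MvPolynomial (A × ℕ) k)[X] :=
  ∑ j ∈ Finset.range (D + 1), C (MvPolynomial.X (α, j)) * X ^ j

lemma univP_map {R : Type*} [CommRing R] [Algebra k R] (f : MvPolynomial (A × ℕ) k →ₐ[k] R) (D : ℕ)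
    (α : A) (p : R[X]) (hp : p.natDegree ≤ D) (hf : ∀ j, f (MvPolynomial.X (α, j)) = p.coeff j) :
    (univP k D α).map (f : MvPolynomial (A × ℕ) k →+* R) = p := by
  unfold univP
  rw [Polynomial.map_sum]
  simp only [Polynomial.map_mul, map_C, Polynomial.map_pow, map_X, RingHom.coe_coe, hf]
  exact (as_sum_range_C_mul_X_pow' (n := D + 1) p (Nat.lt_succ_of_le hp)).symm

/-- all the polynomial relations specialize. -/
theorem SpecTo.aeval_eq_zero [Finite A] {P : A → E[X]} {Q : A → k[X]} (h : SpecTo P Q)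
    (G : MvPolynomial A k) (hG : MvPolynomial.aeval P G = 0) : MvPolynomial.aeval Q G = 0 := by
  classical
  haveI := Fintype.ofFinite A
  set D := Finset.univ.sup (fun α => max (P α).natDegree (Q α).natDegree) with hD
  have hDP : ∀ α, (P α).natDegree ≤ D := fun α =>
    (le_max_left _ _).trans (Finset.le_sup (f := fun α => max (P α).natDegree (Q α).natDegree)
      (Finset.mem_univ α))
  have hDQ : ∀ α, (Q α).natDegree ≤ D := fun α =>
    (le_max_right _ _).trans (Finset.le_sup (f := fun α => max (P α).natDegree (Q α).natDegree)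
      (Finset.mem_univ α))
  have hQ : ∀ α, (univP k D α).map ((MvPolynomial.aeval (fun s : A × ℕ => (Q s.1).coeff s.2) :
      MvPolynomial (A × ℕ) k →ₐ[k] k) : MvPolynomial (A × ℕ) k →+* k) = Q α := fun α =>
    univP_map _ D α (Q α) (hDQ α) fun j => MvPolynomial.aeval_X _ _
  have hP : ∀ α, (univP k D α).map ((MvPolynomial.aeval
      (fun s : A × ℕ => (C ((P s.1).coeff s.2) * X ^ s.2 : E[X])) :
      MvPolynomial (A × ℕ) k →ₐ[k] E[X]) : MvPolynomial (A × ℕ) k →+* E[X]) =
        scaleHom k E (P α) := fun α => by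
    refine univP_map _ D α _ ?_ fun j => ?_
    · rw [natDegree_le_iff_coeff_eq_zero]
      intro n hn
      rw [scaleHom_coeff, coeff_eq_zero_of_natDegree_lt ((hDP α).trans_lt hn), C_0, zero_mul]
    · rw [MvPolynomial.aeval_X, scaleHom_coeff]
  have h1 := PGE.aeval_map (MvPolynomial.aeval
      (fun s : A × ℕ => (C ((P s.1).coeff s.2) * X ^ s.2 : E[X])) :
      MvPolynomial (A × ℕ) k →ₐ[k] E[X]) G (univP k D)
  have h2 := PGE.aeval_map (MvPolynomial.aeval (fun s : A × ℕ => (Q s.1).coeff s.2) :
      MvPolynomial (A × ℕ) k →ₐ[k] k) G (univP k D)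
  simp only [hP] at h1
  simp only [hQ] at h2
  have h3 : MvPolynomial.aeval (fun α => scaleHom k E (P α)) G = scaleHom k E (MvPolynomial.aeval P G) := by
    have := MvPolynomial.comp_aeval_apply (R := k) (f := P) (scaleHom k E) G
    exact this.symm
  rw [h3, hG, map_zero] at h1
  change MvPolynomial.aeval (fun l => Q l) G = 0
  rw [← h2]
  ext j
  rw [coeff_map, coeff_zero]
  refine h _ ?_
  have h4 := congrArg (fun p => p.coeff j) h1
  rw [coeff_map, coeff_zero] at h4
  exact h4

end

end Pool.Agent.PGF
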