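import Pool.Agent.Helper45_PGE.All
import Pool.Agent.Helper45_PGF.Bub
import Pool.Agent.Helper45_PGF.MainF
import Pool.Agent.Helper15_PGF.Bubc
import Pool.Agent.Helper66_PGF.GD
import Pool.Agent.Helper64_PGF.Farc
import Pool.Agent.Helper64_PGF.Cor
import Pool.Agent.Helper84_PGF.GM
import Pool.Agent.Helper84_PGF.SOL
import Pool.Agent.Helper87_PGF.Cnv
import Pool.Agent.Helper87_PGF.Val

/-!
Theorem F, assembly.
-/

set_option autoImplicit false

universe u v₁ v₂ v₃ v₄

namespace Pool.Agent.PGF

theorem allB : BUBStmt.{u, v₁} := bub H87.val H15.bubc H87.cnv1 H87.cnv2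

theorem allS : SOLStmt.{u, v₁, v₂, v₃} := sol (gm H66.gd) allB

theorem allF : MAINFStmt.{u, v₁, v₂, v₃, v₄} := mainf (H64.farc allS) PGE.covAll

/-- sanity check: the theorem on weighted complete intersections is a special case -/
theorem allH' : PGE.MAINHStmt.{u, v₁, v₂, v₃, v₄} := H64.cor allF

end Pool.Agent.PGF
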