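import Pool.Agent.Helper45_PGF.All

/-!
The case `J = ∅`, `e = 1`, `ℓ = a`, `N = ∑ w` of Theorem F, where the assumptions on the arcs are
automatic.
-/

set_option autoImplicit false

open Polynomial CategoryTheory AlgebraicGeometry

universe u v₁ v₂ v₃ v₄

namespace Pool.Agent.PGF

lemma numF_contra {ι τ : Type*} [Fintype ι] [Fintype τ] (m a : ι → ℕ) (d : τ → ℕ)
    (hm : ∀ i, 2 ≤ m i) (hnum : NumF m a d 1 1) : False := by
  classical
  have h2 : ∀ i, a i ≤ m i * a i := fun i =>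
    Nat.le_mul_of_pos_left _ (by have := hm i; omega)
  have hsingle : ∀ (i₀ : ι) (c : ℕ), a i₀ + c ≤ m i₀ * a i₀ →
      ∑ i, a i + c ≤ ∑ i, m i * a i := by
    intro i₀ c hc
    have h1 : ∑ i, (a i + if i = i₀ then c else 0) ≤ ∑ i, m i * a i := by
      refine Finset.sum_le_sum fun i _ => ?_
      by_cases hi : i = i₀
      · subst hi
        rw [if_pos rfl]
        exact hc
      · rw [if_neg hi]
        exact h2 i
    rw [Finset.sum_add_distrib] at h1
    simpa using h1
  have hmul : ∀ i c, c ≤ m i → c * a i ≤ m i * a i := fun i c h => Nat.mul_le_mul_right _ h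
  rcases hnum with ⟨hnum, ⟨i₀, h1, hi⟩ | ⟨i₀, h1, hi⟩ | ⟨i₀, i₁, hne, -, -, h0, h1⟩⟩ |
    ⟨hnum, i₀, h1⟩
  · have h3 : 3 ≤ m i₀ := by
      have := hm i₀
      rcases hi with hi | hi <;> omega
    have h4 := hmul i₀ 3 h3
    have h8 := hsingle i₀ 2 (by omega)
    omega
  · have h4 := hmul i₀ 2 (hm i₀)
    have h8 := hsingle i₀ 2 (by omega)
    omega
  · have h5 : ∑ i, (a i + ((if i = i₀ then 1 else 0) + if i = i₁ then 1 else 0)) ≤
        ∑ i, m i * a i := by
      refine Finset.sum_le_sum fun i _ => ?_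
      have h6 := hmul i 2 (hm i)
      by_cases hi : i = i₀
      · subst hi
        rw [if_pos rfl, if_neg hne]
        omega
      · rw [if_neg hi]
        by_cases hi' : i = i₁
        · subst hi'
          rw [if_pos rfl]
          omega
        · rw [if_neg hi']
          exact h2 i
    rw [Finset.sum_add_distrib, Finset.sum_add_distrib] at h5
    simp only [Finset.sum_ite_eq', Finset.mem_univ, if_true] at h5
    omega
  · have h4 := hmul i₀ 2 (hm i₀)
    have h8 := hsingle i₀ 1 (by omega)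
    omega

/-- Theorem F for `J = ∅`. -/
theorem corB (k : Type u) [Field k] [IsAlgClosed k] [CharZero k] (X : Scheme.{u})
    (f : X ⟶ Spec (.of k)) [IsIntegral X] [IsProper f] (σ : Type v₁) (ι : Type v₂) (τ : Type v₃)
    [Fintype σ] [Fintype ι] [Fintype τ] (w : σ → ℕ) (m a : ι → ℕ)
    (d : τ → ℕ) (g : ι → MvPolynomial σ k) (h : τ → MvPolynomial σ k) (K : Type v₄)
    [Field K] (θ : X.functionField →+* K) (x : σ → K) (y : ι → K)
    (hw : Finset.univ.gcd w = 1) (hm : ∀ i, 2 ≤ m i)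
    (hg : ∀ i, (g i).IsWeightedHomogeneous w (m i * a i))
    (hh : ∀ j, (h j).IsWeightedHomogeneous w (d j))
    (hx : ∀ l, x l ≠ 0) (hy : ∀ i, y i ≠ 0)
    (hP : RingHom.ker (MvPolynomial.eval₂Hom (θ.comp (PGH.constants k f)) (Sum.elim x y)) ∈
      (towerIdeal ∅ m g h).minimalPrimes)
    (hθ : ∀ κ, θ κ ∈ PGE.homFrac (θ.comp (PGH.constants k f)) (Sum.elim w a) (Sum.elim x y))
    (hfin : ∀ κ ∈ PGE.homFrac (θ.comp (PGH.constants k f)) (Sum.elim w a) (Sum.elim x y),
      ∃ F : X.functionField[X], F ≠ 0 ∧ F.eval₂ θ κ = 0)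
    (hnum : NumF m a d 1 (∑ l, w l)) : ¬ PGH.IsPGH k f := by
  classical
  have hpair : ∃ l l', l ≠ l' ∧ 0 < w l ∧ 0 < w l' := by
    rcases H64.exists_pair w hw with h1 | h1
    · exact h1
    · exfalso
      rw [h1] at hnum
      exact numF_contra m a d hm hnum
  obtain ⟨l, l', hne, hl, hl'⟩ := hpair
  refine allF k X f σ ι τ w ∅ m a a d 1 (∑ l, w l) g h K θ x y hw
    (fun F hF => absurd hF (Set.notMem_empty _)) hm hg hh hx hy hP hθ hfin ?_ hnum
  refine ⟨(∏ l, MvPolynomial.X (Sum.inl l)) * ∏ i, MvPolynomial.X (Sum.inr i), ?_, ?_⟩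
  · rw [MvPolynomial.eval₂_mul, MvPolynomial.eval₂_prod, MvPolynomial.eval₂_prod]
    refine mul_ne_zero (Finset.prod_ne_zero_iff.mpr fun l _ => ?_)
      (Finset.prod_ne_zero_iff.mpr fun i _ => ?_)
    · rw [MvPolynomial.eval₂_X]
      exact hx l
    · rw [MvPolynomial.eval₂_X]
      exact hy i
  · intro z y₀ hrel hq
    rw [map_mul, map_prod, map_prod] at hq
    have hy0 : ∀ i, y₀ i ≠ 0 := by
      intro i
      have h1 := Finset.prod_ne_zero_iff.mp (right_ne_zero_of_mul hq) i (Finset.mem_univ i)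
      rw [MvPolynomial.eval_X] at h1
      exact h1
    have hgz : ∀ i, MvPolynomial.eval z (g i) ≠ 0 := by
      intro i
      have h1 := hrel (MvPolynomial.X (Sum.inr i) ^ m i -
        MvPolynomial.rename (Sum.inl : σ → σ ⊕ ι) (g i)) (by
          have h2 := hP.1.2 (Ideal.subset_span (Or.inr ⟨i, rfl⟩) :
            MvPolynomial.X (Sum.inr i) ^ m i -
            MvPolynomial.rename (Sum.inl : σ → σ ⊕ ι) (g i) ∈ towerIdeal ∅ m g h)
          exact h2)
      rw [map_sub, map_pow, MvPolynomial.eval_X, MvPolynomial.eval_rename, sub_eq_zero] at h1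
      have h3 : MvPolynomial.eval (Sum.elim z y₀ ∘ Sum.inl) (g i) = MvPolynomial.eval z (g i) := rfl
      rw [h3] at h1
      rw [← h1]
      exact pow_ne_zero _ (hy0 i)
    refine ⟨?_, H64.freeArc k w m a g hg z hgz l l' hne hl hl'⟩
    intro e' he' p hp
    have he0 : e' = 0 := by omega
    subst he0
    have h1 : ∀ l, p l = 1 := by
      intro l
      have h2 := hp.2.1 l
      rw [zero_mul] at h2
      rw [eq_C_of_natDegree_eq_zero (Nat.le_zero.mp h2), hp.1 l, C_1]
    intro l l'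
    rw [h1, h1, one_pow, one_pow]

end Pool.Agent.PGF
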