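import Pool.Agent.Helper45_PGE.CoreH
import Pool.Agent.Helper45_PGF.Stmts

/-!
Algebraic core of Theorem F.
-/

set_option autoImplicit false

open Polynomial

universe u

namespace Pool.Agent.PGF

open Pool.Agent.PGE

theorem coreF {k : Type u} [Field k] [IsAlgClosed k] [CharZero k] {K K' B : Type*} [Field K]
    [Field K'] [CommRing B]
    (φ : k →+* K) (γ : k →+* B) (hγ : γ.FiniteType) (j : B →+* K)
    (hjφ : ∀ c, j (γ c) = φ c) (hfrac : ∀ κ : K, ∃ a b : B, j b ≠ 0 ∧ κ * j b = j a)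
    (i : K →+* K')
    {σ ι τ : Type*} [Fintype σ] [Fintype ι] [Fintype τ] (w : σ → ℕ)
    (J : Set (MvPolynomial σ k)) (m : ι → ℕ)
    (g : ι → MvPolynomial σ k) (h : τ → MvPolynomial σ k) (e : MvPolynomial (σ ⊕ ι) k →+* K')
    (heC : ∀ c, e (MvPolynomial.C c) = i (φ c)) (q₁ : MvPolynomial (σ ⊕ ι) k) (hq₁e : e q₁ ≠ 0)
    (hArc : ∀ (z : σ → k) (y : ι → k), (∀ F, e F = 0 → MvPolynomial.eval (Sum.elim z y) F = 0) →
      MvPolynomial.eval (Sum.elim z y) q₁ ≠ 0 → (∀ j, MvPolynomial.eval z (h j) = 0) →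
      (∀ i, y i ≠ 0 ∧ y i ^ m i = MvPolynomial.eval z (g i)) → ArcF J w m g h z y)
    (hrep : ∀ κ : K, ∃ p q, e q ≠ 0 ∧ i κ * e q = e p)
    (halg : ∀ l l', ∃ F : K[X], F ≠ 0 ∧ F.eval₂ i
      (e (MvPolynomial.X (Sum.inl l)) ^ w l' / e (MvPolynomial.X (Sum.inl l')) ^ w l) = 0)
    (hX0 : ∀ s, e (MvPolynomial.X s) ≠ 0)
    (hP : RingHom.ker e ∈ (towerIdeal J m g h).minimalPrimes) :
    ∃ (L : Type u) (_ : Field L) (_ : Algebra k L), Good k L ∧ ∃ Ψ : B →+* L,
      (∀ c : k, Ψ (γ c) = algebraMap k L c) ∧ ∃ a, Transcendental k (Ψ a) := by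
  classical
  set I := towerIdeal J m g h with hI
  -- representatives
  choose pK qK hqK hpK using hrep
  choose A E hE hA using hfrac
  choose F hF0 hF using halg
  have hpK0 : ∀ κ, κ ≠ 0 → e (pK κ) ≠ 0 := by
    intro κ hκ
    rw [← hpK]
    exact mul_ne_zero ((map_ne_zero i).mpr hκ) (hqK κ)
  -- generators
  letI : Algebra k B := γ.toAlgebra
  obtain ⟨s, hs⟩ : ∃ s : Finset B, Algebra.adjoin k (s : Set B) = ⊤ := hγ.out
  obtain ⟨q₀, hq₀, hq₁⟩ := minpG I (RingHom.ker e) hP
  let T : Finset (MvPolynomial (σ ⊕ ι) k) := s.image (fun b => qK (j b)) ∪ {q₀, q₁} ∪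
    Finset.univ.image (fun s => MvPolynomial.X s) ∪
    Finset.univ.biUnion (fun l => Finset.univ.biUnion (fun l' => (F l l').support.biUnion (fun n =>
      {pK ((F l l').coeff n), qK ((F l l').coeff n), pK (j (E ((F l l').coeff n)))})))
  have hT : ∀ p ∈ T, e p ≠ 0 := by
    intro p hp
    simp only [T, Finset.mem_union, Finset.mem_image, Finset.mem_singleton, Finset.mem_univ,
      Finset.mem_biUnion, Finset.mem_insert, true_and] at hp
    rcases hp with ((⟨b, _, rfl⟩ | rfl | rfl) | ⟨s, rfl⟩) | ⟨l, l', n, hn, hp⟩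
    · exact hqK _
    · exact hq₀
    · exact hq₁e
    · exact hX0 _
    · rcases hp with rfl | rfl | rfl
      · exact hpK0 _ (mem_support_iff.mp hn)
      · exact hqK _
      · exact hpK0 _ (hE _)
  obtain ⟨z, hz, hzT⟩ := exists_point e T hT
  have hz1 : ∀ b ∈ s, MvPolynomial.eval z (qK (j b)) ≠ 0 := fun b hb => hzT _ (by
    simp only [T, Finset.mem_union, Finset.mem_image]
    exact Or.inl (Or.inl (Or.inl ⟨b, hb, rfl⟩)))
  have hz2 : MvPolynomial.eval z q₀ ≠ 0 := hzT _ (by
    simp only [T, Finset.mem_union, Finset.mem_insert, true_or, or_true])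
  have hz2' : MvPolynomial.eval z q₁ ≠ 0 := hzT _ (by
    simp only [T, Finset.mem_union, Finset.mem_insert, Finset.mem_singleton, true_or, or_true])
  have hz3 : ∀ s, z s ≠ 0 := by
    intro s
    have h1 := hzT (MvPolynomial.X s) (by
      simp only [T, Finset.mem_union, Finset.mem_image, Finset.mem_univ, true_and]
      exact Or.inl (Or.inr ⟨s, rfl⟩))
    rwa [MvPolynomial.eval_X] at h1
  have hz4 : ∀ l l', ∀ n ∈ (F l l').support, MvPolynomial.eval z (pK ((F l l').coeff n)) ≠ 0 ∧
      MvPolynomial.eval z (qK ((F l l').coeff n)) ≠ 0 ∧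
      MvPolynomial.eval z (pK (j (E ((F l l').coeff n)))) ≠ 0 := by
    intro l l' n hn
    have h1 : ∀ p ∈ ({pK ((F l l').coeff n), qK ((F l l').coeff n),
        pK (j (E ((F l l').coeff n)))} : Finset (MvPolynomial (σ ⊕ ι) k)), p ∈ T := by
      intro p hp
      simp only [T, Finset.mem_union, Finset.mem_biUnion, Finset.mem_univ, true_and]
      exact Or.inr ⟨l, l', n, hn, hp⟩
    exact ⟨hzT _ (h1 _ (by simp)), hzT _ (h1 _ (by simp)), hzT _ (h1 _ (by simp))⟩
  have hIe : ∀ p ∈ I, e p = 0 := fun p hp => hP.1.2 hp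
  have hzr : ∀ p : MvPolynomial σ k, MvPolynomial.eval z (MvPolynomial.rename Sum.inl p) =
      MvPolynomial.eval (fun l => z (Sum.inl l)) p := by
    intro p
    rw [MvPolynomial.eval_rename]
    rfl
  have hzz : Sum.elim (fun l => z (Sum.inl l)) (fun i => z (Sum.inr i)) = z := by
    funext s
    rcases s with s | s <;> rfl
  obtain ⟨L, ψ, hgood, hψL, hψ0, hψJ, hψh, hψg, x, hψx, hx0, hxc⟩ := hArc
    (fun l => z (Sum.inl l)) (fun i => z (Sum.inr i)) (fun F hF => by rw [hzz]; exact hz F hF)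
    (by rw [hzz]; exact hz2')
    (fun t => by
      rw [← hzr]
      exact hz _ (hIe _ (Ideal.subset_span (Or.inl (Or.inr ⟨t, rfl⟩)))))
    (fun i => by
      refine ⟨hz3 _, ?_⟩
      have h1 := hz _ (hIe _ (Ideal.subset_span (Or.inr ⟨i, rfl⟩)))
      rw [map_sub, map_pow, MvPolynomial.eval_X, hzr] at h1
      exact sub_eq_zero.mp h1)
  rw [hzz] at hψ0
  have hψx' : ∀ l, ψ (MvPolynomial.X (Sum.inl l)) =
      ((C (z (Sum.inl l)) * x l : k[X]) : PowerSeries k) := hψx
  have hψne : ∀ p, MvPolynomial.eval z p ≠ 0 → ψ p ≠ 0 := by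
    intro p hp h1
    refine hp ?_
    rw [← hψ0, h1, map_zero]
  have hψI : ∀ p ∈ I, ψ p = 0 := by
    have h1 : I ≤ RingHom.ker (ψ : MvPolynomial (σ ⊕ ι) k →+* PowerSeries k) := by
      rw [hI, towerIdeal, Ideal.span_le]
      rintro p ((⟨F, hF, rfl⟩ | ⟨t, rfl⟩) | ⟨i, rfl⟩)
      · exact hψJ F hF
      · exact hψh t
      · exact hψg i
    intro p hp
    exact h1 hp
  have hψP : ∀ p, e p = 0 → ψ p = 0 := by
    intro p hp
    exact hq₁ (PowerSeries k) (ψ : MvPolynomial (σ ⊕ ι) k →+* PowerSeries k) hψI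
      (hψne _ hz2) p hp
  let ψL : MvPolynomial (σ ⊕ ι) k →+* L :=
    ((HahnSeries.ofPowerSeries ℤ k).comp
      (ψ : MvPolynomial (σ ⊕ ι) k →+* PowerSeries k)).codRestrict L.toSubfield.toSubring hψL
  have hψLv : ∀ p, (ψL p : LaurentSeries k) = (ψ p : LaurentSeries k) := fun p => rfl
  have hinj : Function.Injective (HahnSeries.ofPowerSeries ℤ k) :=
    HahnSeries.ofPowerSeries_injective
  have hψL0 : ∀ p, ψL p = 0 ↔ ψ p = 0 := by
    intro p
    constructor
    · intro h1
      apply hinj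
      rw [map_zero]
      have h2 := congrArg (fun v : L => (v : LaurentSeries k)) h1
      exact h2
    · intro h1
      apply Subtype.ext
      rw [hψLv, h1]
      exact map_zero _
  have hψLC : ∀ c, ψL (MvPolynomial.C c) = algebraMap k L c := by
    intro c
    apply Subtype.ext
    rw [hψLv]
    have h1 : ψ (MvPolynomial.C c) = PowerSeries.C c := ψ.commutes c
    rw [h1, PowerSeries.coe_C, ← LaurentSeries.algebraMap_apply]
    rfl
  let M : Submonoid (MvPolynomial (σ ⊕ ι) k) :=
    { carrier := {q | MvPolynomial.eval z q ≠ 0}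
      mul_mem' := fun {a b} ha hb => by
        rw [Set.mem_ofPred_eq, map_mul]
        exact mul_ne_zero ha hb
      one_mem' := by
        rw [Set.mem_ofPred_eq, map_one]
        exact one_ne_zero }
  have hM : ∀ q, q ∈ M ↔ MvPolynomial.eval z q ≠ 0 := fun q => Iff.rfl
  obtain ⟨Θ, hΘ⟩ := exists_ext e ψL M
    (fun q hq => by rw [Ne, hψL0]; exact hψne q hq)
    (fun p hp => (hψL0 p).mpr (hψP p hp))
  have hjO : ∀ b, (i.comp j) b ∈ locSub e M := by
    intro b
    have hb : b ∈ Algebra.adjoin k (s : Set B) := by rw [hs]; trivial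
    induction hb using Algebra.adjoin_induction with
    | mem b hb =>
      exact ⟨pK (j b), qK (j b), hz1 b hb, hpK (j b)⟩
    | algebraMap c =>
      refine ⟨MvPolynomial.C c, 1, M.one_mem, ?_⟩
      rw [map_one, mul_one, heC, ← hjφ]
      rfl
    | add b b' _ _ h1 h2 =>
      rw [map_add]
      exact (locSub e M).add_mem h1 h2
    | mul b b' _ _ h1 h2 =>
      rw [map_mul]
      exact (locSub e M).mul_mem h1 h2
  let Ψ : B →+* L := Θ.comp ((i.comp j).codRestrict (locSub e M) hjO)
  refine ⟨L, inferInstance, inferInstance, hgood, Ψ, ?_, ?_⟩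
  · intro c
    have h1 := hΘ ⟨(i.comp j) (γ c), hjO _⟩ (MvPolynomial.C c) 1 M.one_mem (by
      rw [map_one, mul_one, heC]
      change i (j (γ c)) = _
      rw [hjφ])
    rw [map_one, mul_one, hψLC] at h1
    exact h1
  · by_contra hno
    push Not at hno
    have hcon : ∀ b, ∃ c : k, algebraMap k L c = Ψ b := by
      intro b
      refine mem_range_of_isAlgebraic _ ?_
      have := hno b
      rwa [Transcendental, not_not] at this
    -- units
    have hunit : ∀ (κ : locSub e M) (p q : MvPolynomial (σ ⊕ ι) k), MvPolynomial.eval z p ≠ 0 →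
        (κ : K') * e q = e p → Θ κ ≠ 0 := by
      intro κ p q hp hκ h4
      obtain ⟨p', q', hq', h5⟩ := (mem_locSub e M).mp κ.2
      have h6 := hΘ κ p' q' hq' h5
      rw [h4, zero_mul] at h6
      have h7 : e (p' * q - p * q') = 0 := by
        rw [map_sub, map_mul, map_mul, ← h5, ← hκ]
        ring
      have h8 := (hψL0 _).mpr (hψP _ h7)
      rw [map_sub, map_mul, map_mul, ← h6, zero_mul, zero_sub, neg_eq_zero] at h8
      rcases mul_eq_zero.mp h8 with h9 | h9
      · exact hψne _ hp ((hψL0 _).mp h9)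
      · exact hψne _ hq' ((hψL0 _).mp h9)
    -- the values of the coefficients
    have hmem : ∀ l l' n, i ((F l l').coeff n) ∈ locSub e M := by
      intro l l' n
      by_cases hn : n ∈ (F l l').support
      · exact ⟨pK ((F l l').coeff n), qK ((F l l').coeff n), (hz4 l l' n hn).2.1, hpK _⟩
      · rw [notMem_support_iff.mp hn, map_zero]
        exact (locSub e M).zero_mem
    have hval : ∀ l l', ∀ n ∈ (F l l').support, ∃ c : k, c ≠ 0 ∧
        Θ ⟨i ((F l l').coeff n), hmem l l' n⟩ = algebraMap k L c := by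
      intro l l' n hn
      set κ := (F l l').coeff n with hκ
      obtain ⟨c₁, hc₁⟩ := hcon (A κ)
      obtain ⟨c₂, hc₂⟩ := hcon (E κ)
      have h1 : Θ ⟨i κ, hmem l l' n⟩ * Ψ (E κ) = Ψ (A κ) := by
        change Θ ⟨i κ, hmem l l' n⟩ * Θ ⟨(i.comp j) (E κ), hjO _⟩ = Θ ⟨(i.comp j) (A κ), hjO _⟩
        rw [← map_mul]
        congr 1
        apply Subtype.ext
        change i κ * i (j (E κ)) = i (j (A κ))
        rw [← map_mul, hA κ]
      have h2 : Ψ (E κ) ≠ 0 := hunit ⟨(i.comp j) (E κ), hjO _⟩ (pK (j (E κ))) (qK (j (E κ)))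
        (hz4 l l' n hn).2.2 (hpK _)
      have h3 : Θ ⟨i κ, hmem l l' n⟩ ≠ 0 := hunit _ (pK κ) (qK κ) (hz4 l l' n hn).1 (hpK _)
      have h4 : Θ ⟨i κ, hmem l l' n⟩ = algebraMap k L (c₁ / c₂) := by
        rw [map_div₀, hc₁, hc₂]
        exact eq_div_of_mul_eq h2 h1
      refine ⟨c₁ / c₂, ?_, h4⟩
      intro h5
      rw [h5, map_zero] at h4
      exact h3 h4
    -- the ratios are constant on the arc
    have hX0' : ∀ l', (MvPolynomial.X (Sum.inl l') : MvPolynomial (σ ⊕ ι) k) ∈ M := by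
      intro l'
      rw [hM, MvPolynomial.eval_X]
      exact hz3 _
    have hcl : ∀ l l', ∃ c : k, ψL (MvPolynomial.X (Sum.inl l)) ^ w l' =
        algebraMap k L c * ψL (MvPolynomial.X (Sum.inl l')) ^ w l := by
      intro l l'
      set θ : K' := e (MvPolynomial.X (Sum.inl l)) ^ w l' / e (MvPolynomial.X (Sum.inl l')) ^ w l
        with hθ
      have h1 : θ * e (MvPolynomial.X (Sum.inl l') ^ w l) =
          e (MvPolynomial.X (Sum.inl l) ^ w l') := by
        rw [map_pow, map_pow, hθ]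
        exact div_mul_cancel₀ _ (pow_ne_zero _ (hX0 _))
      have h2 : θ ∈ locSub e M := ⟨_, _, M.pow_mem (hX0' l') _, h1⟩
      have h3 := hΘ ⟨θ, h2⟩ _ _ (M.pow_mem (hX0' l') (w l)) h1
      have h4 : ∃ c : k, algebraMap k L c = Θ ⟨θ, h2⟩ := by
        refine mem_range_of_isAlgebraic _ ?_
        have hch : ∀ n, ∃ c : k, (n ∈ (F l l').support → c ≠ 0 ∧
            Θ ⟨i ((F l l').coeff n), hmem l l' n⟩ = algebraMap k L c) := by
          intro n
          by_cases hn : n ∈ (F l l').support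
          · obtain ⟨c, hc⟩ := hval l l' n hn
            exact ⟨c, fun _ => hc⟩
          · exact ⟨0, fun h => absurd h hn⟩
        choose c hc using hch
        refine ⟨∑ n ∈ (F l l').support, C (c n) * X ^ n, ?_, ?_⟩
        · intro h5
          obtain ⟨n, hn⟩ := nonempty_support_iff.mpr (hF0 l l')
          have h6 := congrArg (fun p => p.coeff n) h5
          simp only [finsetSum_coeff, coeff_C_mul, coeff_X_pow, mul_ite, mul_one, mul_zero,
            Finset.sum_ite_eq, hn, if_true, coeff_zero] at h6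
          exact (hc n hn).1 h6
        · rw [map_sum]
          have h5 : ∑ n ∈ (F l l').support, (⟨i ((F l l').coeff n), hmem l l' n⟩ : locSub e M) *
              ⟨θ, h2⟩ ^ n = 0 := by
            apply Subtype.ext
            rw [AddSubmonoidClass.coe_finsetSum]
            have h6 := hF l l'
            rw [eval₂_eq_sum, sum_def] at h6
            exact h6
          have h6 := congrArg Θ h5
          rw [map_sum, map_zero] at h6
          rw [← h6]
          refine Finset.sum_congr rfl fun n hn => ?_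
          rw [map_mul, map_pow, aeval_C, aeval_X, map_mul, map_pow, (hc n hn).2]
      obtain ⟨c, hc⟩ := h4
      refine ⟨c, ?_⟩
      rw [hc, ← map_pow, ← map_pow, h3]
    refine hxc ?_
    intro l l'
    obtain ⟨c, hc⟩ := hcl l l'
    have h0 : (C (z (Sum.inl l)) * x l) ^ w l' = C c * (C (z (Sum.inl l')) * x l') ^ w l := by
      apply Polynomial.coe_injective
      apply hinj
      have h2 := congrArg (fun v : L => (v : LaurentSeries k)) hc
      rw [← hψLC] at h2
      simp only [← map_pow, ← map_mul] at h2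
      rw [hψLv, hψLv] at h2
      have h3 : ψ (MvPolynomial.X (Sum.inl l) ^ w l') =
          (((C (z (Sum.inl l)) * x l) ^ w l' : k[X]) : PowerSeries k) := by
        rw [map_pow, hψx', Polynomial.coe_pow]
      have h4 : ψ (MvPolynomial.C c * MvPolynomial.X (Sum.inl l') ^ w l) =
          ((C c * (C (z (Sum.inl l')) * x l') ^ w l : k[X]) : PowerSeries k) := by
        rw [map_mul, map_pow, hψx', Polynomial.coe_mul (C c), Polynomial.coe_pow,
          Polynomial.coe_C]
        congr 1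
        exact ψ.commutes c
      rw [h3, h4] at h2
      exact h2
    have h1 : z (Sum.inl l) ^ w l' = c * z (Sum.inl l') ^ w l := by
      have h2 := congrArg (fun p => p.eval 0) h0
      simp only [eval_pow, eval_mul, eval_C] at h2
      rw [← coeff_zero_eq_eval_zero, ← coeff_zero_eq_eval_zero, hx0, hx0, mul_one, mul_one] at h2
      exact h2
    rw [mul_pow, mul_pow, ← mul_assoc, ← C_pow, ← C_pow, ← C_mul, ← h1] at h0
    exact mul_left_cancel₀ (C_ne_zero.mpr (pow_ne_zero _ (hz3 _))) h0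

end Pool.Agent.PGF
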