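import Pool.Agent.Helper45_PGF.Stmts

/-!
# Cyclic covers of complete intersections in the Grassmannian of lines
-/

set_option autoImplicit false

open CategoryTheory AlgebraicGeometry

universe u v₂ v₃ v₄

namespace Pool.Agent.PGF

/-- GR: lines in the Grassmannian. -/
def GRStmt : Prop := ∀ (k : Type u) [Field k] [CharZero k] (n : ℕ) (ι : Type v₂)
  (m a : ι → ℕ) (g : ι → MvPolynomial (Pairs n) k) (z : Pairs n → k), 3 ≤ n →
  (∀ i, (g i).IsHomogeneous (m i * a i)) → (∀ l, z l ≠ 0) →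
  (∀ F ∈ plucker k n, MvPolynomial.eval z F = 0) → (∀ i, MvPolynomial.eval z (g i) ≠ 0) →
  FreeArc (plucker k n) (fun _ => 1) 1 g m a n z

/-- GRMAIN: cyclic covers of complete intersections in the Grassmannian of lines. -/
def GRMainStmt : Prop := ∀ (k : Type u) [Field k] [IsAlgClosed k] [CharZero k] (X : Scheme.{u})
  (f : X ⟶ Spec (.of k)) [IsIntegral X] [IsProper f] (n : ℕ) (ι : Type v₂) (τ : Type v₃)
  [Fintype ι] [Fintype τ] (m a : ι → ℕ)
  (d : τ → ℕ) (g : ι → MvPolynomial (Pairs n) k) (h : τ → MvPolynomial (Pairs n) k)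
  (K : Type v₄) [Field K] (θ : X.functionField →+* K) (x : Pairs n → K) (y : ι → K),
  3 ≤ n →
  (∀ i, 2 ≤ m i) →
  (∀ i, (g i).IsHomogeneous (m i * a i)) →
  (∀ j, (h j).IsHomogeneous (d j)) →
  (∀ l, x l ≠ 0) → (∀ i, y i ≠ 0) →
  RingHom.ker (MvPolynomial.eval₂Hom (θ.comp (PGH.constants k f)) (Sum.elim x y)) ∈
    (towerIdeal (plucker k n) m g h).minimalPrimes →
  (∀ κ, θ κ ∈ PGE.homFrac (θ.comp (PGH.constants k f)) (Sum.elim (fun _ => 1) a)
    (Sum.elim x y)) →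
  (∀ κ ∈ PGE.homFrac (θ.comp (PGH.constants k f)) (Sum.elim (fun _ => 1) a) (Sum.elim x y),
    ∃ F : Polynomial X.functionField, F ≠ 0 ∧ F.eval₂ θ κ = 0) →
  NumF m a d 1 n →
  ¬ PGH.IsPGH k f

end Pool.Agent.PGF
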