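import Pool.Agent.Helper1_PGH.Defs
import Pool.Agent.Helper45_PGE.RatFun
import Pool.Agent.Helper45_PGF.Defs
import Pool.Agent.Helper45_PGF.Eqs

/-!
# Targets of generically finite dominant rational maps from `V`
-/

set_option autoImplicit false

open CategoryTheory AlgebraicGeometry

universe u v₁ v₂ v₃ v₄

namespace Pool.Agent.PGF

section

variable {k : Type u} [Field k] {X : Scheme.{u}} (f : X ⟶ Spec (.of k)) [IsIntegral X]
  {σ : Type v₁} {ι : Type v₂} {τ : Type v₃} (w : σ → ℕ) (a m : ι → ℕ)
  (J : Set (MvPolynomial σ k)) (g : ι → MvPolynomial σ k) (h : τ → MvPolynomial σ k)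
  {K : Type v₄} [Field K] (θ : X.functionField →+* K) (x : σ → K) (y : ι → K)

/-- `x l` (of weight `w l`) and `y i` (of weight `a i`) are the homogeneous coordinates, in the
extension `θ` of `k(X)`, of the generic point of an irreducible component `V`, contained in no
coordinate hyperplane, of the locus `F (x) = 0` (`F ∈ J`), `h j (x) = 0`,
`(y i) ^ (m i) = g i (x)`; and `X` is the target of a generically finite dominant rational map from
`V`: `θ` maps `k(X)` into the function field of `V`, and the latter is algebraic over `k(X)`. -/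
structure IsTarget : Prop where
  x_ne : ∀ l, x l ≠ 0
  y_ne : ∀ i, y i ≠ 0
  component : RingHom.ker (MvPolynomial.eval₂Hom (θ.comp (PGH.constants k f)) (Sum.elim x y)) ∈
    (towerIdeal J m g h).minimalPrimes
  into : ∀ κ, θ κ ∈ PGE.homFrac (θ.comp (PGH.constants k f)) (Sum.elim w a) (Sum.elim x y)
  algebraic : ∀ κ ∈ PGE.homFrac (θ.comp (PGH.constants k f)) (Sum.elim w a) (Sum.elim x y),
    ∃ F : Polynomial X.functionField, F ≠ 0 ∧ F.eval₂ θ κ = 0

/-- The condition on the curves through the general point: there is a polynomial `q`, which does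
not vanish on `V`, such that (R1) and (R2) hold for every `k`-point `(z, y₀)` of (the cone of) `V`
with `q (z, y₀) ≠ 0`. -/
def GenArcs (ℓ : ι → ℕ) (e N : ℕ) : Prop :=
  ∃ q : MvPolynomial (σ ⊕ ι) k,
    q.eval₂ (θ.comp (PGH.constants k f)) (Sum.elim x y) ≠ 0 ∧
    ∀ (z : σ → k) (y₀ : ι → k),
      (∀ F : MvPolynomial (σ ⊕ ι) k, F.eval₂ (θ.comp (PGH.constants k f)) (Sum.elim x y) = 0 →
        MvPolynomial.eval (Sum.elim z y₀) F = 0) →
      MvPolynomial.eval (Sum.elim z y₀) q ≠ 0 → NoArc J w e z ∧ FreeArc J w e g m ℓ N z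

end

end Pool.Agent.PGF
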